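import Pool.Agent.Helper3_PPZ.Stmts
import Pool.Agent.Helper65_PPX.Cop
import Pool.Agent.Helper1_PGH.DerivExt

/-!
FRA: the field of fractions of the quotient by the ideal, with the derivation.
-/

set_option autoImplicit false

universe u

namespace Pool.Agent.PPZ.H32

open MvPolynomial PGH PPX Pool.Agent.PPZ

/-- a derivation with prescribed values on a transcendence basis -/
theorem exists_deriv_values (k L : Type*) [Field k] [Field L] [Algebra k L] [CharZero k]
    {ι : Type*} (x : ι → L) (ht : AlgebraicIndependent k x)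
    (halg : ∀ y : L, IsAlgebraic (IntermediateField.adjoin k (Set.range x)) y) (u : ι → L) :
    ∃ δ : Derivation k L L, ∀ i, δ (x i) = u i := by
  classical
  let φ : MvPolynomial ι k →ₐ[k] L := MvPolynomial.aeval x
  have hφ : Function.Injective φ := ht
  let K' := IntermediateField.adjoin k (Set.range x)
  have hmem : ∀ a, φ a ∈ K' := by
    intro a
    have h2 : φ a ∈ φ.range := ⟨a, rfl⟩
    have h3 : φ.range = Algebra.adjoin k (Set.range x) :=
      (Algebra.adjoin_range_eq_range_aeval k _).symm
    rw [h3] at h2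
    exact IntermediateField.algebra_adjoin_le_adjoin _ _ h2
  let ψ : MvPolynomial ι k →ₐ[k] K' := φ.codRestrict K'.toSubalgebra hmem
  have hψ : Function.Injective ψ := fun a b h => hφ (congrArg Subtype.val h)
  let _ : Algebra (MvPolynomial ι k) L := φ.toRingHom.toAlgebra
  let _ : Algebra (MvPolynomial ι k) K' := ψ.toRingHom.toAlgebra
  have : IsScalarTower (MvPolynomial ι k) K' L := IsScalarTower.of_algebraMap_eq (fun _ => rfl)
  have : IsScalarTower k (MvPolynomial ι k) L := IsScalarTower.of_algebraMap_eq (fun c => by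
    exact (φ.commutes c).symm)
  have : FaithfulSMul (MvPolynomial ι k) K' :=
    (faithfulSMul_iff_algebraMap_injective _ _).2 hψ
  have : IsFractionRing (MvPolynomial ι k) K' := by
    apply IsFractionRing.of_field
    rintro ⟨z, hz⟩
    obtain ⟨x, hx, y, hy, hxy⟩ := IntermediateField.mem_adjoin_iff_div.1 hz
    rw [Algebra.adjoin_range_eq_range_aeval] at hx hy
    obtain ⟨a, ha⟩ := hx
    obtain ⟨b, hb⟩ := hy
    refine ⟨a, b, Subtype.ext ?_⟩
    change z = φ a / φ b
    rw [hxy, ← ha, ← hb]
    rfl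
  have : Algebra.FormallyEtale (MvPolynomial ι k) K' :=
    Algebra.FormallyEtale.of_isLocalization (nonZeroDivisors (MvPolynomial ι k))
  have : CharZero K' := charZero_of_injective_algebraMap (algebraMap k K').injective
  have : Algebra.IsAlgebraic K' L := ⟨halg⟩
  have : Algebra.FormallyEtale K' L := Algebra.FormallyEtale.of_isSeparable _ _
  have : Algebra.FormallyEtale (MvPolynomial ι k) L := Algebra.FormallyEtale.comp _ K' _
  let D₀ : Derivation k (MvPolynomial ι k) L := MvPolynomial.mkDerivation k u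
  obtain ⟨D, hD⟩ := exists_deriv_ext k (MvPolynomial ι k) L L D₀
  refine ⟨D, ?_⟩
  intro i
  have h4 := hD (MvPolynomial.X i)
  have h5 : algebraMap (MvPolynomial ι k) L (MvPolynomial.X i) = x i := by
    change φ (MvPolynomial.X i) = x i
    simp [φ]
  rw [h5] at h4
  rw [h4]
  simp [D₀]

/-- chain rule -/
theorem deriv_aeval {k K : Type*} [Field k] [Field K] [Algebra k K] {n : ℕ}
    (D : Derivation k K K) (e : Fin n → K) (Q : MvPolynomial (Fin n) k) :
    D (aeval e Q) = ∑ v, aeval e (pderiv v Q) * D (e v) := by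
  induction Q using MvPolynomial.induction_on with
  | C c =>
    rw [aeval_C, D.map_algebraMap]
    simp
  | add p q hp hq =>
    rw [map_add, map_add, hp, hq, ← Finset.sum_add_distrib]
    refine Finset.sum_congr rfl fun v _ => ?_
    rw [map_add, map_add, add_mul]
  | mul_X p i hp =>
    rw [map_mul, aeval_X, D.leibniz, smul_eq_mul, smul_eq_mul, hp]
    have h : ∀ v, aeval e (pderiv v (p * X i)) * D (e v) =
        aeval e p * ((if v = i then 1 else 0) * D (e v)) + e i * (aeval e (pderiv v p) * D (e v)) := by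
      intro v
      rw [Derivation.leibniz, pderiv_X, smul_eq_mul, smul_eq_mul, map_add, map_mul, map_mul,
        aeval_X, Pi.single_apply]
      by_cases hvi : v = i
      · subst hvi
        simp only [if_true, map_one]
        ring
      · rw [if_neg (Ne.symm hvi), if_neg hvi, map_zero]
        ring
    rw [Finset.sum_congr rfl fun v _ => h v, Finset.sum_add_distrib, ← Finset.mul_sum,
      ← Finset.mul_sum]
    congr 2
    simp

/-- the value of a polynomial depends only on the values at its variables -/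
theorem aeval_congr_vars {k K : Type*} [Field k] [CommRing K] [Algebra k K] {σ : Type*}
    (f g : σ → K) (p : MvPolynomial σ k) (h : ∀ i ∈ p.vars, f i = g i) :
    aeval f p = aeval g p := by
  have := MvPolynomial.eval₂Hom_congr' (f₁ := algebraMap k K) (f₂ := algebraMap k K) (g₁ := f)
    (g₂ := g) (p₁ := p) (p₂ := p) rfl (fun i hi _ => h i hi) rfl
  simpa [MvPolynomial.aeval_def] using this

theorem range_pair {K : Type*} (x y : K) : Set.range ![x, y] = ({x, y} : Set K) := by
  ext t
  simp only [Set.mem_range, Fin.exists_fin_two, Set.mem_insert_iff, Set.mem_singleton_iff,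
    Matrix.cons_val_zero, Matrix.cons_val_one, eq_comm]

theorem degreeOf_eq_zero_iff_notMem {k : Type*} [Field k] {σ : Type*} (i : σ)
    (w : MvPolynomial σ k) : degreeOf i w = 0 ↔ i ∉ w.vars := by
  classical
  rw [degreeOf_def, Multiset.count_eq_zero, vars_def, Multiset.mem_toFinset]

/-- renaming forth and back -/
theorem rename_rename_vars {k : Type*} [Field k] {σ τ : Type*} (g : σ → τ) (h : τ → σ)
    (w : MvPolynomial σ k) (hv : ∀ v ∈ w.vars, h (g v) = v) : rename h (rename g w) = w := by
  rw [rename_rename]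
  have h4 : aeval (fun v => (X ((h ∘ g) v) : MvPolynomial σ k)) w =
      aeval (fun v => (X v : MvPolynomial σ k)) w := by
    apply aeval_congr_vars
    intro v hv'
    rw [Function.comp_apply, hv v hv']
  have h6 : aeval (fun v => (X v : MvPolynomial σ k)) w = w := MvPolynomial.aeval_X_left_apply w
  have h7 : (rename (h ∘ g) : MvPolynomial σ k →ₐ[k] MvPolynomial σ k) =
      aeval (fun v => (X ((h ∘ g) v) : MvPolynomial σ k)) := by
    apply MvPolynomial.algHom_ext
    intro v
    rw [rename_X, aeval_X]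
  rw [h7, h4, h6]

theorem degreeOf_pderiv_le {k : Type*} [Field k] {σ : Type*} (i j : σ) (p : MvPolynomial σ k) :
    degreeOf j (pderiv i p) ≤ degreeOf j p := by
  classical
  rw [degreeOf_le_iff]
  intro m hm
  rw [mem_support_iff, coeff_pderiv] at hm
  have h1 : m + Finsupp.single i 1 ∈ p.support := by
    rw [mem_support_iff]
    exact left_ne_zero_of_mul hm
  have h2 := monomial_le_degreeOf j h1
  rw [Finsupp.add_apply] at h2
  omega

theorem degreeOf_pderiv_lt {k : Type*} [Field k] {σ : Type*} (i : σ) (p : MvPolynomial σ k)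
    (hp : 0 < degreeOf i p) : degreeOf i (pderiv i p) < degreeOf i p := by
  classical
  have h : degreeOf i (pderiv i p) ≤ degreeOf i p - 1 := by
    rw [degreeOf_le_iff]
    intro m hm
    rw [mem_support_iff, coeff_pderiv] at hm
    have h1 : m + Finsupp.single i 1 ∈ p.support := by
      rw [mem_support_iff]
      exact left_ne_zero_of_mul hm
    have h2 := monomial_le_degreeOf i h1
    rw [Finsupp.add_apply, Finsupp.single_eq_same] at h2
    omega
  omega

theorem pderiv_ne_zero {k : Type*} [Field k] [CharZero k] {σ : Type*} (i : σ)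
    (p : MvPolynomial σ k) (hp : 0 < degreeOf i p) : pderiv i p ≠ 0 := by
  classical
  intro h0
  have hex : ∃ m ∈ p.support, 0 < m i := by
    by_contra hcon
    push Not at hcon
    have : degreeOf i p ≤ 0 := by
      rw [degreeOf_le_iff]
      exact hcon
    omega
  obtain ⟨m, hm, hmi⟩ := hex
  have h1 := coeff_pderiv (i := i) p (m - Finsupp.single i 1)
  have h2 : m - Finsupp.single i 1 + Finsupp.single i 1 = m := by
    apply tsub_add_cancel_of_le
    rw [Finsupp.single_le_iff]
    exact hmi
  rw [h0, coeff_zero, h2] at h1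
  rw [mem_support_iff] at hm
  have h3 : ((((m - Finsupp.single i 1 : σ →₀ ℕ) i : ℕ) : k) + 1) ≠ 0 := by
    exact Nat.cast_add_one_ne_zero _
  exact (mul_ne_zero hm h3) h1.symm

/-- logarithmic derivative of the product of the `X v - a i` -/
theorem aeval_pderiv_prod {k K : Type*} [Field k] [Field K] [Algebra k K] (e : Fin 4 → K)
    (v : Fin 4) {ι : Type*} (s : Finset ι) (a : ι → k)
    (h : ∀ i ∈ s, e v - algebraMap k K (a i) ≠ 0) :
    aeval e (pderiv v (∏ i ∈ s, ((X v : P4 k) - C (a i)))) =
      (∏ i ∈ s, (e v - algebraMap k K (a i))) * ∑ i ∈ s, (e v - algebraMap k K (a i))⁻¹ := by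
  classical
  induction s using Finset.induction_on with
  | empty => simp
  | insert i s hi ih =>
    rw [Finset.prod_insert hi, Finset.prod_insert hi, Finset.sum_insert hi, Derivation.leibniz,
      smul_eq_mul, smul_eq_mul, map_add, map_mul, map_mul,
      ih (fun j hj => h j (Finset.mem_insert_of_mem hj))]
    have h0 := h i (Finset.mem_insert_self i s)
    have h1 : aeval e ((X v : P4 k) - C (a i)) = e v - algebraMap k K (a i) := by
      rw [map_sub, aeval_X, aeval_C]
    have h2 : aeval e (∏ x ∈ s, ((X v : P4 k) - C (a x))) =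
        ∏ x ∈ s, (e v - algebraMap k K (a x)) := by
      rw [map_prod]
      refine Finset.prod_congr rfl fun x _ => ?_
      rw [map_sub, aeval_X, aeval_C]
    have h3 : pderiv v ((X v : P4 k) - C (a i)) = 1 := by
      rw [map_sub, pderiv_C, pderiv_X_self, sub_zero]
    rw [h1, h2, h3, map_one, mul_add, mul_one]
    have h4 : (e v - algebraMap k K (a i)) * (∏ x ∈ s, (e v - algebraMap k K (a x))) *
        (e v - algebraMap k K (a i))⁻¹ = ∏ x ∈ s, (e v - algebraMap k K (a x)) := by
      field_simp
    rw [h4]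
    ring

/-- elimination gives algebraicity -/
theorem alg_of_elim {k K : Type*} [Field k] [Field K] [Algebra k K] (e : Fin 4 → K)
    (hind : AlgebraicIndependent k ![e 0, e 1]) (i j : Fin 4) (hij : (i = 2 ∧ j = 3) ∨ (i = 3 ∧ j = 2))
    (w : P4 k) (hw : w ≠ 0) (hdeg : degreeOf i w = 0) (hval : aeval e w = 0) :
    IsAlgebraic (IntermediateField.adjoin k {e 0, e 1}) (e j) := by
  classical
  have hi : i ∉ w.vars := by
    intro hi
    exact absurd ((degreeOf_eq_zero_iff_notMem i w).mp hdeg) (not_not.mpr hi)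
  by_contra hcon
  rw [IntermediateField.isAlgebraic_adjoin_iff] at hcon
  have hrange : Set.range ![e 0, e 1] = ({e 0, e 1} : Set K) := by
    exact range_pair _ _
  rw [← hrange] at hcon
  have htr := (hind.option_iff_transcendental (e j)).mpr hcon
  let g : Fin 4 → Option (Fin 2) := fun v => if v = 0 then some 0 else if v = 1 then some 1 else none
  let h : Option (Fin 2) → Fin 4 := fun o => o.elim j ![0, 1]
  have hvars : ∀ v ∈ w.vars, v = 0 ∨ v = 1 ∨ v = j := by
    intro v hv
    have hvi : v ≠ i := fun h => hi (h ▸ hv)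
    rcases hij with ⟨h1, h2⟩ | ⟨h1, h2⟩ <;> subst h1 h2 <;> fin_cases v <;> simp_all
  have hj0 : j ≠ 0 ∧ j ≠ 1 := by
    rcases hij with ⟨-, h2⟩ | ⟨-, h2⟩ <;> subst h2 <;> decide
  have h1 : aeval (fun o : Option (Fin 2) => o.elim (e j) ![e 0, e 1]) (rename g w) = 0 := by
    rw [aeval_rename, ← hval]
    apply aeval_congr_vars
    intro v hv
    rcases hvars v hv with h | h | h <;> subst h
    · rfl
    · rfl
    · simp [g, hj0.1, hj0.2]
  have h2 : rename g w = 0 := by
    apply htr
    rw [h1, map_zero]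
  have h3 : rename h (rename g w) = w := by
    apply rename_rename_vars
    intro v hv
    rcases hvars v hv with h5 | h5 | h5 <;> subst h5
    · rfl
    · rfl
    · simp [g, h, hj0.1, hj0.2]
  rw [h2, map_zero] at h3
  exact hw h3.symm

/-- FRA. -/
theorem fra : FraStmt.{u} := by
  classical
  intro k _ _ N₁ N₂ a b Θ r M₀ v hv R Q hR hQ hirr hdvd
  have hprime := hv.prime
  have hdom : IsDomain (P4 k ⧸ v) := Ideal.Quotient.isDomain v
  let K := FractionRing (P4 k ⧸ v)
  let e : Fin 4 → K := fun i => algebraMap (P4 k ⧸ v) K (Ideal.Quotient.mk v (X i))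
  have hae : ∀ F : P4 k, aeval e F = algebraMap (P4 k ⧸ v) K (Ideal.Quotient.mk v F) := by
    intro F
    have h1 : (aeval e : P4 k →ₐ[k] K) =
        ((IsScalarTower.toAlgHom k (P4 k ⧸ v) K).comp (Ideal.Quotient.mkₐ k v)) := by
      apply MvPolynomial.algHom_ext
      intro i
      rw [aeval_X]
      rfl
    rw [h1]
    rfl
  have hker : ∀ F : P4 k, aeval e F = 0 ↔ F ∈ v := by
    intro F
    rw [hae, ← Ideal.Quotient.eq_zero_iff_mem]
    exact map_eq_zero_iff _ (IsFractionRing.injective (P4 k ⧸ v) K)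
  have hchar : CharZero K := charZero_of_injective_algebraMap (algebraMap k K).injective
  have hinc : ∀ F : MvPolynomial (Fin 2) k, aeval e (inc F) = aeval ![e 0, e 1] F := by
    intro F
    unfold inc
    rw [aeval_rename]
    congr 2
    funext i
    fin_cases i <;> rfl
  have hind : AlgebraicIndependent k ![e 0, e 1] := by
    rw [algebraicIndependent_iff]
    intro F hF
    rw [← hinc] at hF
    exact hv.plane F ((hker _).mp hF)
  -- elimination
  have helim : ∀ i : Fin 4, ∃ w ∈ v, w ≠ 0 ∧ degreeOf i w = 0 := by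
    intro i
    obtain ⟨U, V, w, h1, h2, h3⟩ := (PPX.H65.cop : PPX.CopStmt.{u, 0}) R Q hirr hdvd i
    refine ⟨w, ?_, h2, h3⟩
    rw [← h1]
    exact v.add_mem (v.mul_mem_left _ hR) (v.mul_mem_left _ hQ)
  obtain ⟨w₂, hw₂, hw₂0, hw₂d⟩ := helim 3
  obtain ⟨w₃, hw₃, hw₃0, hw₃d⟩ := helim 2
  have halg2 := alg_of_elim e hind 3 2 (Or.inr ⟨rfl, rfl⟩) w₂ hw₂0 hw₂d ((hker _).mpr hw₂)
  have halg3 := alg_of_elim e hind 2 3 (Or.inl ⟨rfl, rfl⟩) w₃ hw₃0 hw₃d ((hker _).mpr hw₃)
  have halg : ∀ y : K, IsAlgebraic (IntermediateField.adjoin k {e 0, e 1}) y := by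
    let F₀ := IntermediateField.adjoin k ({e 0, e 1} : Set K)
    let Ac : IntermediateField F₀ K := algebraicClosure F₀ K
    have hmem : ∀ v, e v ∈ Ac := by
      intro v
      rw [mem_algebraicClosure_iff]
      fin_cases v
      · exact isAlgebraic_algebraMap (⟨e 0, IntermediateField.subset_adjoin k _ (by simp)⟩ : F₀)
      · exact isAlgebraic_algebraMap (⟨e 1, IntermediateField.subset_adjoin k _ (by simp)⟩ : F₀)
      · exact halg2
      · exact halg3
    have hpoly : ∀ F : P4 k, aeval e F ∈ Ac := by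
      intro F
      induction F using MvPolynomial.induction_on with
      | C c =>
        rw [aeval_C, IsScalarTower.algebraMap_apply k F₀ K]
        exact Ac.algebraMap_mem _
      | add p q hp hq => rw [map_add]; exact Ac.add_mem hp hq
      | mul_X p i hp => rw [map_mul, aeval_X]; exact Ac.mul_mem hp (hmem i)
    intro y
    have hy : y ∈ Ac := by
      obtain ⟨p, q, hq, rfl⟩ := IsFractionRing.div_surjective (A := P4 k ⧸ v) y
      obtain ⟨p', rfl⟩ := Ideal.Quotient.mk_surjective p
      obtain ⟨q', rfl⟩ := Ideal.Quotient.mk_surjective q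
      rw [← hae, ← hae]
      exact Ac.div_mem (hpoly _) (hpoly _)
    exact (mem_algebraicClosure_iff).mp hy
  have hrange : Set.range ![e 0, e 1] = ({e 0, e 1} : Set K) := by
    exact range_pair _ _
  obtain ⟨D, hD⟩ := exists_deriv_values k K ![e 0, e 1] hind (by rw [hrange]; exact halg)
    ![e 2, 1]
  have hD0 : D (e 0) = e 2 := hD 0
  have hD1 : D (e 1) = 1 := hD 1
  refine ⟨K, inferInstance, inferInstance, e, D, hker, hind, halg, hD0, hD1, ?_⟩
  -- a polynomial of minimal degree in the variable 2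
  obtain ⟨G, hGv, hG0, hG3, hGmin⟩ : ∃ G ∈ v, G ≠ 0 ∧ degreeOf 3 G = 0 ∧
      ∀ G' ∈ v, degreeOf 3 G' = 0 → degreeOf 2 G' < degreeOf 2 G → G' = 0 := by
    have hex : ∃ n, ∃ G ∈ v, G ≠ 0 ∧ degreeOf 3 G = 0 ∧ degreeOf 2 G = n :=
      ⟨_, w₂, hw₂, hw₂0, hw₂d, rfl⟩
    obtain ⟨G, h1, h2, h3, h4⟩ := Nat.find_spec hex
    refine ⟨G, h1, h2, h3, ?_⟩
    intro G' hG' hG'3 hlt
    by_contra hne
    rw [h4] at hlt
    exact Nat.find_min hex hlt ⟨G', hG', hne, hG'3, rfl⟩
  have hG2 : 0 < degreeOf 2 G := by
    by_contra hcon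
    have hG2 : degreeOf 2 G = 0 := by omega
    have h3 := (degreeOf_eq_zero_iff_notMem 3 G).mp hG3
    have h2 := (degreeOf_eq_zero_iff_notMem 2 G).mp hG2
    have h4 : rename ![0, 1] (rename (fun v : Fin 4 => if v = 1 then (1 : Fin 2) else 0) G) = G := by
      apply rename_rename_vars
      intro v hv
      fin_cases v
      · rfl
      · rfl
      · exact absurd hv h2
      · exact absurd hv h3
    have h5 := hv.plane (rename (fun v : Fin 4 => if v = 1 then (1 : Fin 2) else 0) G) (by
      unfold inc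
      rw [h4]
      exact hGv)
    rw [h5, map_zero] at h4
    exact hG0 h4.symm
  have hG2v : pderiv 2 G ∉ v := by
    intro hmem
    have h1 : degreeOf 3 (pderiv 2 G) = 0 := by
      have := degreeOf_pderiv_le 2 3 G
      omega
    exact pderiv_ne_zero 2 G hG2 (hGmin _ hmem h1 (degreeOf_pderiv_lt 2 G hG2))
  have hG2ne : aeval e (pderiv 2 G) ≠ 0 := fun h => hG2v ((hker _).mp h)
  have hG3z : pderiv 3 G = 0 :=
    pderiv_eq_zero_of_notMem_vars ((degreeOf_eq_zero_iff_notMem 3 G).mp hG3)
  have hXC : ∀ (i : Fin 2) (c : k), aeval ![e 0, e 1] ((X i : MvPolynomial (Fin 2) k) - C c) ≠ 0 := by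
    intro i c h
    have h1 := hind (a₁ := X i - C c) (a₂ := 0) (by rw [h, map_zero])
    have h2 := congrArg (eval (fun _ => c + 1)) h1
    rw [map_sub, eval_X, eval_C, map_zero] at h2
    exact one_ne_zero (α := k) (by linear_combination h2)
  have hx0 : ∀ c : k, e 0 - algebraMap k K c ≠ 0 := by
    intro c
    have h := hXC 0 c
    rw [map_sub, aeval_X, aeval_C] at h
    exact h
  have hz0 : ∀ c : k, e 1 - algebraMap k K c ≠ 0 := by
    intro c
    have h := hXC 1 c
    rw [map_sub, aeval_X, aeval_C] at h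
    exact h
  have hop := (hker _).mpr (hv.der G hGv hG3)
  have hfx : aeval e (fx a) = ∏ i, (e 0 - algebraMap k K (a i)) := by
    unfold fx
    rw [map_prod]
    exact Finset.prod_congr rfl fun x _ => by rw [map_sub, aeval_X, aeval_C]
  have hgz : aeval e (gz b) = ∏ j, (e 1 - algebraMap k K (b j)) := by
    unfold gz
    rw [map_prod]
    exact Finset.prod_congr rfl fun x _ => by rw [map_sub, aeval_X, aeval_C]
  have hfx' : aeval e (pderiv 0 (fx a)) = (∏ i, (e 0 - algebraMap k K (a i))) *
      ∑ i, (e 0 - algebraMap k K (a i))⁻¹ := aeval_pderiv_prod e 0 _ a fun i _ => hx0 _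
  have hgz' : aeval e (pderiv 1 (gz b)) = (∏ j, (e 1 - algebraMap k K (b j))) *
      ∑ j, (e 1 - algebraMap k K (b j))⁻¹ := aeval_pderiv_prod e 1 _ b fun j _ => hz0 _
  have hfne : (∏ i, (e 0 - algebraMap k K (a i))) ≠ 0 :=
    Finset.prod_ne_zero_iff.mpr fun i _ => hx0 _
  have hgne : (∏ j, (e 1 - algebraMap k K (b j))) ≠ 0 :=
    Finset.prod_ne_zero_iff.mpr fun j _ => hz0 _
  have hchain := deriv_aeval D e G
  rw [(hker _).mpr hGv, map_zero, Fin.sum_univ_four, hG3z, map_zero, zero_mul, add_zero, hD0,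
    hD1] at hchain
  unfold op at hop
  simp only [map_add, map_sub, map_mul, aeval_X, map_ofNat, hfx, hgz, hfx', hgz'] at hop
  generalize (∏ i, (e 0 - algebraMap k K (a i))) = F₀ at *
  generalize (∏ j, (e 1 - algebraMap k K (b j))) = G₀ at *
  generalize (∑ i, (e 0 - algebraMap k K (a i))⁻¹) = Sf at *
  generalize (∑ j, (e 1 - algebraMap k K (b j))⁻¹) = Sg at *
  apply mul_left_cancel₀ hG2ne
  apply mul_left_cancel₀ (mul_ne_zero hfne hgne)
  linear_combination (-(F₀ * G₀)) * hchain - hop

end Pool.Agent.PPZ.H32
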